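import Pool.Agent.H113Z.Dist.Defs

namespace Pool.Agent.H113Z.Dist
open Filter Topology Set Asymptotics

namespace KillAux

def Pres (f : Pm) (a b : ℝ) : Prop := ∀ x, x ∈ Icc a b ↔ f x ∈ Icc a b

theorem Pres.mul {f g : Pm} {a b : ℝ} (hf : Pres f a b) (hg : Pres g a b) : Pres (f * g) a b :=
  fun x => (hg x).trans (hf (g x))

theorem Pres.inv {f : Pm} {a b : ℝ} (hf : Pres f a b) : Pres f⁻¹ a b := by
  intro x
  have := hf (f⁻¹ x)
  rw [show f (f⁻¹ x) = x from f.apply_symm_apply x] at this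
  exact this.symm

theorem pres_of_fix {f : Pm} {a b : ℝ} (hm : StrictMono f) (ha : f a = a) (hb : f b = b) :
    Pres f a b := by
  intro x
  have h1 : f a ≤ f x ↔ a ≤ x := hm.le_iff_le
  have h2 : f x ≤ f b ↔ x ≤ b := hm.le_iff_le
  rw [ha] at h1
  rw [hb] at h2
  exact ⟨fun h => ⟨h1.mpr h.1, h2.mpr h.2⟩, fun h => ⟨h1.mp h.1, h2.mp h.2⟩⟩

theorem pres_of_sm {ν : Type} {lo hi : ν → ℝ} {P : ν → Pm} (h : Sm lo hi P) (k : ν) :
    Pres (P k) (lo k) (hi k) :=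
  pres_of_fix (h.1 k).1.2 ((h.1 k).2 _ (Or.inl le_rfl)) ((h.1 k).2 _ (Or.inr le_rfl))

theorem two {ν : Type} {lo hi : ν → ℝ} (hF : Fam lo hi) {P1 Q1 P2 Q2 : ν → Pm}
    (hP : Sm lo hi P2) (hQ : Sm lo hi Q2) {W1 W2 : Pm}
    (h1 : ∀ᶠ y in atTop, (∀ k, y ∈ Icc (lo k) (hi k) → W1 y = cm (P1 k) (Q1 k) y) ∧
      ((∀ k, y ∉ Icc (lo k) (hi k)) → W1 y = y))
    (h2 : ∀ᶠ y in atTop, (∀ k, y ∈ Icc (lo k) (hi k) → W2 y = cm (P2 k) (Q2 k) y) ∧
      ((∀ k, y ∉ Icc (lo k) (hi k)) → W2 y = y))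
    (ρ : Pm) (S : ν → ℝ → Prop) (R : ℝ)
    (hS : ∀ k, R ≤ lo k → ∀ x, (S k x → (cm (P1 k) (Q1 k) * cm (P2 k) (Q2 k)) x = ρ x) ∧
      (¬ S k x → (cm (P1 k) (Q1 k) * cm (P2 k) (Q2 k)) x = x))
    (hin : ∀ᶠ y in atTop, ∀ k, S k y → y ∈ Icc (lo k) (hi k)) :
    ∀ᶠ y in atTop, ((∃ k, S k y) → (W1 * W2) y = ρ y) ∧ ((¬ ∃ k, S k y) → (W1 * W2) y = y) := by
  obtain ⟨Y1, hY1⟩ := eventually_atTop.mp h1
  filter_upwards [h1, h2, hin, eventually_ge_atTop (2 * Y1), eventually_ge_atTop (2 * R)] with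
    y a1 a2 a3 a4 a5
  have key : ∀ k, y ∈ Icc (lo k) (hi k) →
      R ≤ lo k ∧ (W1 * W2) y = (cm (P1 k) (Q1 k) * cm (P2 k) (Q2 k)) y := by
    intro k hk
    have hl := (hF.1 k).2.2
    refine ⟨by linarith [hk.2], ?_⟩
    have p1 := pres_of_sm hP k
    have p2 := pres_of_sm hQ k
    have hm : cm (P2 k) (Q2 k) y ∈ Icc (lo k) (hi k) :=
      (((p1.mul p2).mul p1.inv).mul p2.inv y).mp hk
    rw [Equiv.Perm.mul_apply, Equiv.Perm.mul_apply, a2.1 k hk]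
    exact (hY1 _ (by linarith [hk.2, hm.1])).1 k hm
  constructor
  · rintro ⟨k, hk⟩
    obtain ⟨b1, b2⟩ := key k (a3 k hk)
    rw [b2]
    exact (hS k b1 y).1 hk
  · intro hn
    by_cases h : ∃ k, y ∈ Icc (lo k) (hi k)
    · obtain ⟨k, hk⟩ := h
      obtain ⟨b1, b2⟩ := key k hk
      rw [b2]
      exact (hS k b1 y).2 (fun h' => hn ⟨k, h'⟩)
    · push Not at h
      rw [Equiv.Perm.mul_apply, a2.2 h, a1.2 h]

theorem rz_le {e : ℕ} (he : 3 ≤ e) :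
    0 ≤ rz e ∧ rz e ≤ 2 ^ e / 8 ∧ 2 * rz e ≤ 2 ^ e * (2 / (e : ℝ) ^ 2) := by
  have h3 : (3 : ℝ) ≤ e := by exact_mod_cast he
  have h0 : (0 : ℝ) < e := by linarith
  have h12 : (3 : ℝ) ^ 12 ≤ (e : ℝ) ^ 12 := by gcongr
  have h14 : (3 : ℝ) ^ 14 ≤ (e : ℝ) ^ 14 := by gcongr
  have ht : (0 : ℝ) < 2 ^ e := by positivity
  unfold rz
  refine ⟨by positivity, ?_, ?_⟩
  · rw [div_le_div_iff₀ (by positivity) (by norm_num)]
    nlinarith
  · rw [← mul_div_assoc, ← mul_div_assoc, div_le_div_iff₀ (by positivity) (by positivity)]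
    have e1 : (e : ℝ) ^ 14 = (e : ℝ) ^ 12 * (e : ℝ) ^ 2 := by ring
    rw [e1]
    have h2 : (0 : ℝ) < 2 ^ e * (e : ℝ) ^ 2 := by positivity
    nlinarith

theorem big (E : ℕ) : ∀ᶠ y : ℝ in atTop, ∀ e : ℕ, y ≤ 2 ^ e * (2 * (e : ℝ) + 1) → E ≤ e := by
  filter_upwards [eventually_gt_atTop ((2 : ℝ) ^ E * (2 * (E : ℝ) + 1))] with y hy e he
  by_contra h
  push Not at h
  have h1 : (e : ℝ) ≤ E := by exact_mod_cast h.le
  have h2 : (2 : ℝ) ^ e ≤ 2 ^ E := pow_le_pow_right₀ (by norm_num) h.le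
  have : (2 : ℝ) ^ e * (2 * (e : ℝ) + 1) ≤ 2 ^ E * (2 * (E : ℝ) + 1) := by gcongr
  linarith

theorem exc_in (i : ℕ) : ∃ E : ℕ, ∀ k : IE, E ≤ k.1 → loE k ≤ aE i k.1 ∧ bE k.1 ≤ hiE k := by
  have hc : (0 : ℝ) < 2 * i + 1 / 2 := by positivity
  have h1 := (Real.isLittleO_log_id_atTop.comp_tendsto
    (tendsto_natCast_atTop_atTop (R := ℝ))).bound (c := 1 / (2 * i + 1 / 2)) (by positivity)
  have h2 : ∀ᶠ e : ℕ in atTop, 10 * (2 * (i : ℝ) + 1 / 2) ≤ e :=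
    (tendsto_natCast_atTop_atTop (R := ℝ)).eventually_ge_atTop _
  obtain ⟨E, hE⟩ := eventually_atTop.mp (h1.and h2)
  refine ⟨E, fun k hk => ?_⟩
  obtain ⟨e, he⟩ := k
  obtain ⟨a1, a2⟩ := hE e hk
  have h3 : (3 : ℝ) ≤ e := by exact_mod_cast he
  have hl0 : 0 ≤ Real.log e := Real.log_nonneg (by linarith)
  simp only [Function.comp, id, Real.norm_eq_abs] at a1
  rw [abs_of_nonneg hl0, abs_of_nonneg (by linarith), one_div, ← div_eq_inv_mul,
    le_div_iff₀ hc] at a1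
  have hr : 0 < rE e := by unfold rE; linarith
  have ht : (0 : ℝ) < 2 ^ e := by positivity
  have b1 : 2 * (i : ℝ) + 1 / 2 ≤ 4 * e / rE e := by
    rw [le_div_iff₀ hr]; unfold rE; nlinarith
  have b2 : (1 / 2 : ℝ) ≤ 4 * e / rE e := by
    have : (0 : ℝ) ≤ i := Nat.cast_nonneg _
    linarith
  simp only [loE, hiE, aE, bE]
  constructor
  · have : (2 : ℝ) ^ (e + 1) * e * (1 - 2 / rE e) = 2 ^ e * (2 * e - 4 * e / rE e) := by ring
    rw [this]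
    exact mul_le_mul_of_nonneg_left (by linarith) ht.le
  · have : (2 : ℝ) ^ (e + 1) * e * (1 + 4 / rE e) = 2 ^ e * (2 * e + 2 * (4 * e / rE e)) := by ring
    rw [this]
    exact mul_le_mul_of_nonneg_left (by linarith) ht.le

theorem disj {i e e' n : ℕ} (he : 2 * i + 3 ≤ e) (he' : 3 ≤ e') (h1 : e' ≤ n) (h2 : n + 2 * i < 2 * e')
    {y : ℝ} (hy : y ∈ Icc (aE i e) (bE e)) (hz : |y - 2 ^ e' * n| ≤ 2 * rz e') : False := by
  obtain ⟨_, r1, _⟩ := rz_le he'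
  obtain ⟨z1, z2⟩ := abs_le.mp hz
  obtain ⟨y1, y2⟩ := hy
  simp only [aE, bE] at y1 y2
  have c1 : (e' : ℝ) ≤ n := by exact_mod_cast h1
  have c2 : (n : ℝ) + 2 * i + 1 ≤ 2 * e' := by exact_mod_cast h2
  have c3 : 2 * (i : ℝ) + 3 ≤ e := by exact_mod_cast he
  have c4 : (0 : ℝ) ≤ i := Nat.cast_nonneg _
  have ht : (0 : ℝ) < 2 ^ e := by positivity
  have ht' : (0 : ℝ) < 2 ^ e' := by positivity
  rcases lt_trichotomy e' e with h | rfl | h
  · have d1 : (2 : ℝ) ^ e' * 2 ≤ 2 ^ e := by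
      rw [← pow_succ]; exact pow_le_pow_right₀ (by norm_num) h
    have d2 : (e' : ℝ) + 1 ≤ e := by exact_mod_cast h
    have d3 : y ≤ 2 ^ e' * 2 * (e : ℝ) := by nlinarith
    have d4 : (2 : ℝ) ^ e' * 2 * (e : ℝ) ≤ 2 ^ e * e := by gcongr
    nlinarith
  · nlinarith
  · have d1 : (2 : ℝ) ^ e * 2 ≤ 2 ^ e' := by
      rw [← pow_succ]; exact pow_le_pow_right₀ (by norm_num) h
    have d2 : (e : ℝ) + 1 ≤ e' := by exact_mod_cast h
    have d3 : 2 ^ e' * ((e : ℝ) + 3 / 4) ≤ y := by nlinarith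
    have d4 : (2 : ℝ) ^ e * 2 * ((e : ℝ) + 3 / 4) ≤ 2 ^ e' * ((e : ℝ) + 3 / 4) := by gcongr
    nlinarith

theorem final (i : ℕ) (ρ UZ UE : Pm) (hρ : Rem i ρ)
    (hZ : ∀ᶠ y : ℝ in atTop, ((∃ k : IZ, k.1.2 + 2 * i < 2 * k.1.1 ∧
        |y - 2 ^ k.1.1 * k.1.2| ≤ 2 * rz k.1.1) → UZ y = ρ y) ∧
      ((¬ ∃ k : IZ, k.1.2 + 2 * i < 2 * k.1.1 ∧
        |y - 2 ^ k.1.1 * k.1.2| ≤ 2 * rz k.1.1) → UZ y = y))
    (hE : ∀ᶠ y : ℝ in atTop, ((∃ k : IE, y ∈ Icc (aE i k.1) (bE k.1)) → UE y = ρ y) ∧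
      ((¬ ∃ k : IE, y ∈ Icc (aE i k.1) (bE k.1)) → UE y = y)) :
    ∀ᶠ y in atTop, ρ y = (UZ * UE) y := by
  obtain ⟨hg, C, X, e0, -, -, hfix, -⟩ := hρ
  have hm : StrictMono ρ := strictMono_of_deriv_pos hg.2
  obtain ⟨Y, hY⟩ := eventually_atTop.mp hZ
  have c4 : (0 : ℝ) ≤ i := Nat.cast_nonneg _
  filter_upwards [hZ, hE, big (e0 + 2 * i + 4), eventually_ge_atTop (2 * Y)] with y a1 a2 a3 a4
  rw [Equiv.Perm.mul_apply]
  by_cases h : ∃ k : IE, y ∈ Icc (aE i k.1) (bE k.1)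
  · rw [a2.1 h]
    obtain ⟨⟨e, he3⟩, hk⟩ := h
    simp only at hk
    have ht : (0 : ℝ) < 2 ^ e := by positivity
    have he : e0 + 2 * i + 4 ≤ e := a3 e (by
      have := hk.2
      simp only [bE] at this
      nlinarith)
    have c3 : 2 * (i : ℝ) + 4 ≤ e := by
      have : 2 * i + 4 ≤ e := by omega
      exact_mod_cast this
    have f1 : ρ (aE i e) = aE i e := by
      obtain ⟨_, r1, _⟩ := rz_le he3
      have hn : ((2 * e - 2 * i : ℕ) : ℝ) = 2 * e - 2 * i := by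
        rw [Nat.cast_sub (by omega)]; push_cast; ring
      apply hfix e (2 * e - 2 * i) (by omega) (by omega) (by omega)
      · rw [hn, aE]; nlinarith
      · rw [hn, aE]; nlinarith
    have f2 : ρ (bE e) = bE e := by
      obtain ⟨_, r1, _⟩ := rz_le (e := e + 1) (by omega)
      rw [pow_succ] at r1
      apply hfix (e + 1) (e + 1) (by omega) le_rfl (by omega)
      · rw [bE, pow_succ]; push_cast; nlinarith
      · rw [bE, pow_succ]; push_cast; nlinarith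
    have hin := (pres_of_fix hm f1 f2 y).mp hk
    have hbig : Y ≤ ρ y := by
      have b1 := hin.1
      have b2 := hk.2
      simp only [aE, bE] at b1 b2
      nlinarith
    symm
    apply (hY _ hbig).2
    rintro ⟨⟨⟨e', n⟩, h1, h2, h3⟩, h4, h5⟩
    exact disj (by omega) h1 h2 h4 hin h5
  · rw [a2.2 h]
    by_cases h' : ∃ k : IZ, k.1.2 + 2 * i < 2 * k.1.1 ∧ |y - 2 ^ k.1.1 * k.1.2| ≤ 2 * rz k.1.1
    · exact (a1.1 h').symm
    rw [a1.2 h']
    have hex : ∃ e : ℕ, y ≤ 2 ^ e * (2 * (e : ℝ)) := by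
      obtain ⟨e, he⟩ := exists_nat_ge y
      refine ⟨e, he.trans ?_⟩
      have : (1 : ℝ) ≤ 2 ^ e := one_le_pow₀ (by norm_num)
      have h0 : (0 : ℝ) ≤ e := Nat.cast_nonneg _
      nlinarith
    classical
    have s1 := Nat.find_spec hex
    have s2 : ∀ m, m < Nat.find hex → ¬ y ≤ 2 ^ m * (2 * (m : ℝ)) := fun m hm => Nat.find_min hex hm
    generalize Nat.find hex = e at s1 s2
    have ht0 : (0 : ℝ) < 2 ^ e := by positivity
    have he : e0 + 2 * i + 4 ≤ e := a3 e (by nlinarith)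
    obtain ⟨d, rfl⟩ : ∃ d, e = d + 1 := ⟨e - 1, by omega⟩
    have s3 := not_le.mp (s2 d (Nat.lt_succ_self d))
    have ht : (0 : ℝ) < 2 ^ d := by positivity
    obtain ⟨r0, r1, _⟩ := rz_le (e := d + 1) (by omega)
    have hy0 : 0 ≤ y / 2 ^ (d + 1) := by
      apply div_nonneg _ ht0.le
      have h0 : (0 : ℝ) ≤ d := Nat.cast_nonneg _
      nlinarith
    have n1 : y ≤ 2 ^ (d + 1) * (⌈y / 2 ^ (d + 1)⌉₊ : ℝ) := by
      have := Nat.le_ceil (y / 2 ^ (d + 1))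
      rwa [div_le_iff₀ ht0, mul_comm] at this
    have n2 : 2 ^ (d + 1) * ((⌈y / 2 ^ (d + 1)⌉₊ : ℝ) - 1) < y := by
      have := Nat.ceil_lt_add_one hy0
      rw [← sub_lt_iff_lt_add, lt_div_iff₀ ht0, mul_comm] at this
      exact this
    generalize ⌈y / 2 ^ (d + 1)⌉₊ = n at n1 n2
    have hp : (2 : ℝ) ^ (d + 1) = 2 ^ d * 2 := pow_succ _ _
    have m1 : d + 1 ≤ n := by
      have : (d : ℝ) < n := by
        by_contra hh
        push Not at hh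
        rw [hp] at n1
        nlinarith
      exact_mod_cast this
    have x1 : y < aE i (d + 1) := by
      by_contra hh
      push Not at hh
      apply h ⟨⟨d + 1, by omega⟩, hh, ?_⟩
      simp only [bE]
      nlinarith
    simp only [aE] at x1
    have m2 : n + 2 * i ≤ 2 * (d + 1) := by
      have : (n : ℝ) + 2 * i < 2 * ((d + 1 : ℕ) : ℝ) + 1 := by
        by_contra hh
        push Not at hh
        nlinarith
      have h5 : n + 2 * i < 2 * (d + 1) + 1 := by exact_mod_cast this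
      omega
    apply hfix (d + 1) n (by omega) m1 m2
    · rcases m1.lt_or_eq with m1 | rfl
      · obtain ⟨n', rfl⟩ : ∃ n', n = n' + 1 := ⟨n - 1, by omega⟩
        by_contra hh
        push Not at hh
        apply h' ⟨⟨(d + 1, n'), by omega, by omega, by omega⟩, by simp only; omega, ?_⟩
        simp only
        push_cast at n2 hh
        rw [abs_le]
        constructor <;> nlinarith
      · by_contra hh
        push Not at hh
        apply h ⟨⟨d, by omega⟩, ?_, ?_⟩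
        · simp only [aE]
          nlinarith
        · simp only [bE]
          push_cast at hh
          rw [hp] at hh r1
          nlinarith
    · rcases m2.lt_or_eq with m2 | m2
      · by_contra hh
        push Not at hh
        apply h' ⟨⟨(d + 1, n), by omega, by omega, by omega⟩, m2, ?_⟩
        simp only
        rw [abs_le]
        constructor <;> nlinarith
      · have : (n : ℝ) + 2 * i = 2 * ((d + 1 : ℕ) : ℝ) := by exact_mod_cast m2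
        rw [← this] at x1
        nlinarith

end KillAux

open KillAux in
theorem kill (hA : AbsStmt) (hZ : Fam loZ hiZ) (hE : Fam loE hiE) (h1 : ZoneStmt) (h2 : ExcStmt) :
    KillStmt := by
  intro ρ hρ
  choose P1 Q1 P2 Q2 s1 s2 s3 s4 RZ hRZ using fun i => h1 i (ρ i) (hρ i)
  choose P3 Q3 P4 Q4 t1 t2 t3 t4 RE hRE using fun i => h2 i (ρ i) (hρ i)
  obtain ⟨b0, b1, m0, m1, o0, o1, w0⟩ := hA IZ loZ hiZ P1 Q1 hZ s1 s2
  obtain ⟨b2, b3, m2, m3, o2, o3, w1⟩ := hA IZ loZ hiZ P2 Q2 hZ s3 s4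
  obtain ⟨b4, b5, m4, m5, o4, o5, w2⟩ := hA IE loE hiE P3 Q3 hE t1 t2
  obtain ⟨b6, b7, m6, m7, o6, o7, w3⟩ := hA IE loE hiE P4 Q4 hE t3 t4
  refine ⟨![b0, b1, b2, b3, b4, b5, b6, b7], ?_, fun i => ?_⟩
  · intro k
    fin_cases k
    · exact ⟨m0, o0⟩
    · exact ⟨m1, o1⟩
    · exact ⟨m2, o2⟩
    · exact ⟨m3, o3⟩
    · exact ⟨m4, o4⟩
    · exact ⟨m5, o5⟩
    · exact ⟨m6, o6⟩
    · exact ⟨m7, o7⟩
  · have z := two hZ (s3 i) (s4 i) (w0 i) (w1 i) (ρ i)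
      (fun k x => k.1.2 + 2 * i < 2 * k.1.1 ∧ |x - 2 ^ k.1.1 * k.1.2| ≤ 2 * rz k.1.1) (RZ i) (hRZ i)
      (Eventually.of_forall (by
        rintro y ⟨⟨e, n⟩, h1, h2, h3⟩ ⟨_, h5⟩
        obtain ⟨r0, _, r2⟩ := rz_le h1
        obtain ⟨z1, z2⟩ := abs_le.mp h5
        simp only [loZ, hiZ, mem_Icc] at z1 z2 r0 r2 ⊢
        have e1 : (4 : ℝ) / (e : ℝ) ^ 2 = 2 * (2 / (e : ℝ) ^ 2) := by ring
        rw [e1]
        constructor <;> nlinarith))
    obtain ⟨E, hE'⟩ := exc_in i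
    have x := two hE (t3 i) (t4 i) (w2 i) (w3 i) (ρ i)
      (fun k x => x ∈ Icc (aE i k.1) (bE k.1)) (RE i) (hRE i) (by
        filter_upwards [big E] with y hy k hk
        have ht : (0 : ℝ) < 2 ^ k.1 := by positivity
        have := hE' k (hy k.1 (by
          have := hk.2
          simp only [bE] at this
          nlinarith))
        exact ⟨this.1.trans hk.1, hk.2.trans this.2⟩)
    have := final i (ρ i) _ _ (hρ i) z x
    rw [← mul_assoc] at this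
    simp only [Matrix.cons_val]
    exact this

end Pool.Agent.H113Z.Dist
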